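import Mathlib
import Pool.Agent.Helper850.RA.P_core
import Pool.Agent.Helper850.RB.P_final

set_option autoImplicit false

/-!
# The semi-algebraic Ramsey number `R_f^{(3)}(4,n)` in the plane is not polynomially bounded

We exhibit a polynomial `f` in the six coordinates of three points of the plane for which
`R_f^{(3)}(4,n)` grows faster than every polynomial in `n`.

With `a = v - u`, `b = w - v`, `D = a₁ b₂ - a₂ b₁` and `T = a₁³ b₁` the polynomial is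
`f(u,v,w) = (4 D² - T) (4 T - D²)`.
-/

namespace Pool.Agent.Results.MP_654b32_co.SuperpolyRamsey

open Filter

/-- Value of a real polynomial in six variables at three points of the plane. -/
noncomputable def value (f : MvPolynomial (Fin 6) ℝ) (a b c : ℝ × ℝ) : ℝ :=
  MvPolynomial.eval ![a.1, a.2, b.1, b.2, c.1, c.2] f

/-- For `i < j < k`: `{v i, v j, v k}` is an edge of the hypergraph that `f` defines on the
sequence `v`. -/
def Edge {N : ℕ} (f : MvPolynomial (Fin 6) ℝ) (v : Fin N → ℝ × ℝ) (i j k : Fin N) : Prop :=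
  0 ≤ value f (v i) (v j) (v k)

/-- All `3`-subsets of `{v i : i ∈ S}` are edges. -/
def IsClique {N : ℕ} (f : MvPolynomial (Fin 6) ℝ) (v : Fin N → ℝ × ℝ) (S : Finset (Fin N)) :
    Prop :=
  ∀ i ∈ S, ∀ j ∈ S, ∀ k ∈ S, i < j → j < k → Edge f v i j k

/-- No `3`-subset of `{v i : i ∈ S}` is an edge. -/
def IsIndependent {N : ℕ} (f : MvPolynomial (Fin 6) ℝ) (v : Fin N → ℝ × ℝ)
    (S : Finset (Fin N)) : Prop :=
  ∀ i ∈ S, ∀ j ∈ S, ∀ k ∈ S, i < j → j < k → ¬ Edge f v i j k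

/-- Every sequence of `N` distinct points of the plane has a clique on `s` vertices or an
independent set on `n` vertices in the hypergraph defined by `f`. -/
def RamseyProperty (f : MvPolynomial (Fin 6) ℝ) (s n N : ℕ) : Prop :=
  ∀ v : Fin N → ℝ × ℝ, Function.Injective v →
    (∃ S : Finset (Fin N), S.card = s ∧ IsClique f v S) ∨
    (∃ S : Finset (Fin N), S.card = n ∧ IsIndependent f v S)

/-- `R_f^{(3)}(s,n)`: the least `N` with the Ramsey property. -/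
noncomputable def ramseyNumber (f : MvPolynomial (Fin 6) ℝ) (s n : ℕ) : ℕ :=
  sInf {N | RamseyProperty f s n N}

theorem ramseyNumber_eq (f : MvPolynomial (Fin 6) ℝ) (s n : ℕ) :
    ramseyNumber f s n = R3B.RR f s n := rfl

theorem core_input : ∀ c : ℝ, 0 < c → ∃ (ι : Type) (_ : Fintype ι) (_ : DecidableEq ι)
      (rk : ι → ℕ) (V : ι → (ι → ZMod 2) → ι → ℤ), R3B.Valid1 rk V ∧ R3B.Small V c := by
  intro c hc
  obtain ⟨ι, i1, i2, rk, V, hV, hs⟩ := R3A.core c hc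
  refine ⟨ι, i1, i2, rk, V, ?_, ?_⟩
  · exact ⟨hV.inj, fun ℓ q => hV.self () ℓ q, fun ℓ q ℓ' => hV.top () ℓ q ℓ',
      fun ℓ q ℓ' => hV.abs () ℓ q ℓ', fun ℓ q q' => hV.dep () ℓ q q'⟩
  · intro A _ _ e p he f hf hI
    exact hs A e p he f hf hI

theorem superpoly (C : ℝ) :
    ∀ᶠ n : ℕ in atTop, C * (n : ℝ) ^ C < (ramseyNumber R3B.fpoly 4 n : ℝ) := by
  have h := R3B.final core_input ⌈C⌉₊
  filter_upwards [h, eventually_ge_atTop 1] with n hn hn1
  have hn1' : (1 : ℝ) ≤ n := by exact_mod_cast hn1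
  have hcast : ((⌈C⌉₊ * n ^ ⌈C⌉₊ : ℕ) : ℝ) < (ramseyNumber R3B.fpoly 4 n : ℝ) := by
    rw [ramseyNumber_eq]
    exact_mod_cast hn
  refine lt_of_le_of_lt ?_ hcast
  push_cast
  have hC : C ≤ (⌈C⌉₊ : ℝ) := Nat.le_ceil C
  have hpos : (0 : ℝ) ≤ (n : ℝ) ^ C := Real.rpow_nonneg (by linarith) C
  have h1 : (n : ℝ) ^ C ≤ (n : ℝ) ^ (⌈C⌉₊ : ℝ) := Real.rpow_le_rpow_of_exponent_le hn1' hC
  rw [Real.rpow_natCast] at h1
  have h2 : (0 : ℝ) ≤ (⌈C⌉₊ : ℝ) := Nat.cast_nonneg _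
  calc C * (n : ℝ) ^ C ≤ (⌈C⌉₊ : ℝ) * (n : ℝ) ^ C := mul_le_mul_of_nonneg_right hC hpos
    _ ≤ (⌈C⌉₊ : ℝ) * (n : ℝ) ^ ⌈C⌉₊ := mul_le_mul_of_nonneg_left h1 h2

/-- For some polynomial `f` the number `R_f^{(3)}(4,n)` grows faster than every polynomial in `n`
(and all the numbers `R_f^{(3)}(s,n)` are finite); so it is not true that for every polynomial `f`
there is a constant `C` with `R_f^{(3)}(4,n) ≤ C n^C` for all `n ≥ 1`. -/
theorem result :
    (∃ f : MvPolynomial (Fin 6) ℝ, ∀ C : ℝ,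
      ∀ᶠ n : ℕ in atTop, C * (n : ℝ) ^ C < (ramseyNumber f 4 n : ℝ)) ∧
    (¬ ∀ f : MvPolynomial (Fin 6) ℝ, ∃ C : ℝ, ∀ n : ℕ, 1 ≤ n →
      (ramseyNumber f 4 n : ℝ) ≤ C * (n : ℝ) ^ C) ∧
    (∀ (f : MvPolynomial (Fin 6) ℝ) (s n : ℕ), {N | RamseyProperty f s n N}.Nonempty) := by
  refine ⟨⟨R3B.fpoly, superpoly⟩, ?_, fun f s n => R3B.arrow_exists f s n⟩
  intro h
  obtain ⟨C, hC⟩ := h R3B.fpoly
  obtain ⟨n, hn, hn1⟩ := ((superpoly C).and (eventually_ge_atTop 1)).exists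
  exact absurd (hC n hn1) (not_le.mpr hn)

end Pool.Agent.Results.MP_654b32_co.SuperpolyRamsey
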